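import Pool.Agent.Work.MP_c109c8_lc.Asym

/-!
# MP_c109c8_lc: statement (B) fails (and (A) holds for the system of (B), with narrowness `n^δ`)

For every `β < 1` there is `δ > 0` such that for all large `n` and all `n < m ≤ n + n^β`, every
refutation of the negation of `PHP_n^m` whose lines are sequents of clauses and conjunctions of at
most `n^δ` literals, and whose inferences are arbitrary sound inferences with at most `n^δ`
premises, has at least `exp (n^δ)` lines.

With `β = 3/4` this covers `m = n + n^{1/2}` under any rounding; since a power of `log N` is at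
most `n^δ`, and `n^{C log n} < exp (n^δ)`, for large `n`, statement (B) fails for every `C` and all
large `n`.  This last step is also checked: it is the theorem
`Pool.Agent.Work.MP_c109c8_lc.not_B` in the imported file `Asym.lean`.
-/

set_option autoImplicit false

open Filter Pool.Agent.Work.MP_c109c8_lc

namespace Pool.Agent.Results.MP_c109c8_lc.StatementBFails

theorem result : ∀ β : ℝ, β < 1 → ∃ δ : ℝ, 0 < δ ∧ ∀ᶠ n : ℕ in atTop,
    ∀ m k r S : ℕ, n < m → (m : ℝ) ≤ n + (n : ℝ) ^ β → (k : ℝ) ≤ (n : ℝ) ^ δ →
      (r : ℝ) ≤ (n : ℝ) ^ δ → Nonempty (NarrowRefutation m n k r S) →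
        Real.exp ((n : ℝ) ^ δ) ≤ S :=
  fun _ hβ => main_bound hβ

end Pool.Agent.Results.MP_c109c8_lc.StatementBFails
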